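import Pool.Agent.Work.MP_dbd475_al.Cohn
import Pool.Agent.Work.MP_dbd475_al.Compute

/-!
# The Kashuba–Mathieu character formula for free Jordan algebras fails for `dim V = 3`

The unique pair `(a(V), b(V))` has `6015` as its `a`-coefficient at the weight `(6, 6, 1)`
(kernel computation), whereas the weight space of weight `(6, 6, 1)` of the free Jordan algebra
on three generators has dimension at least `6016`, because by Cohn's theorem it maps onto the
span of the symmetrized words of that weight.
-/

set_option autoImplicit false

open MvPowerSeries

namespace Pool.Agent.Results.MP_dbd475_al.Disproof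

open Pool.Agent.Work.MP_dbd475_al

/-- For `dim V = 3` over any field `k` of characteristic zero, there is exactly one pair
`(a(V), b(V))` as in the conjecture of Kashuba and Mathieu, and `a(V)` is not the character of
the free Jordan algebra `Jord(V)`. -/
theorem result (k : Type*) [Field k] [CharZero k] :
    ∃ a b : MvPowerSeries (Fin 3) ℤ, IsKMPair a b ∧
      (∀ a' b' : MvPowerSeries (Fin 3) ℤ, IsKMPair a' b' → a' = a ∧ b' = b) ∧
      a ≠ jordanChar k (Fin 3) := by
  refine ⟨aV, bV, isKMPair_V, fun a' b' h => km_unique h isKMPair_V, ?_⟩
  intro h
  have h1 := value_661 (isKMPair_V (n := 3))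
  rw [h] at h1
  have h2 : ((Module.finrank k (weightSpace k (vec 6 6 1)) : ℕ) : ℤ) = 6015 := h1
  have h3 : 6016 ≤ Module.finrank k (weightSpace k (vec 6 6 1)) := finrank_w661 k
  have h4 : Module.finrank k (weightSpace k (vec 6 6 1)) = 6015 := by exact_mod_cast h2
  omega

end Pool.Agent.Results.MP_dbd475_al.Disproof
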